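import Pool.Agent.Helper63.XR.StA

/-! Project XR (MP_c973ff_an), module EEE: flatness of the range of `E` and its rank. -/

set_option autoImplicit false

namespace Pool.Agent.Helper2.XR

open Pool.Agent.Helper63.XR
open Finset

theorem n1_nonneg {J : Type} [Fintype J] (f : J → ℂ) : 0 ≤ n1 f := sum_nonneg fun _ _ => norm_nonneg _

/-- the norm of `M v` -/
theorem n1_mulVec {J : Type} [Fintype J] {M : Matrix J J ℂ} {K : ℝ} (hM : ColLe M K) (v : J → ℂ) :
    n1 (M.mulVec v) ≤ K * n1 v := by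
  unfold n1
  calc ∑ i, ‖(M.mulVec v) i‖ ≤ ∑ i, ∑ j, ‖M i j‖ * ‖v j‖ := by
        refine sum_le_sum fun i _ => ?_
        unfold Matrix.mulVec dotProduct
        refine (norm_sum_le _ _).trans (le_of_eq ?_)
        exact sum_congr rfl fun j _ => norm_mul _ _
    _ = ∑ j, (∑ i, ‖M i j‖) * ‖v j‖ := by
        rw [sum_comm]
        exact sum_congr rfl fun j _ => (sum_mul _ _ _).symm
    _ ≤ ∑ j, K * ‖v j‖ := sum_le_sum fun j _ => mul_le_mul_of_nonneg_right (hM j) (norm_nonneg _)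
    _ = K * ∑ j, ‖v j‖ := (mul_sum _ _ _).symm

theorem colLe_mul {J : Type} [Fintype J] {M N : Matrix J J ℂ} {C K : ℝ} (hC : 0 ≤ C) (hM : ColLe M C) (hN : ColLe N K) :
    ColLe (M * N) (C * K) := by
  intro j
  have h := n1_mulVec hM (fun i => N i j)
  have e : ∑ i, ‖(M * N) i j‖ = n1 (M.mulVec fun i => N i j) := rfl
  rw [e]
  refine h.trans (mul_le_mul_of_nonneg_left ?_ hC)
  exact hN j

section
variable {P : Type} [Fintype P] [DecidableEq P] {k b : ℕ} {a : ℕ → ℕ} {S : Type} [Fintype S] [DecidableEq S]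

/-- the bound of the entries in the row of `c` -/
noncomputable def rb (g : LG P k b a) (C : ℝ) (c : P) : ℝ := if g.lev c = 0 then 0 else C / a (g.lev c)

theorem rb_nonneg (g : LG P k b a) {C : ℝ} (hC : 0 < C) (c : P) : 0 ≤ rb g C c := by
  unfold rb
  split_ifs
  · exact le_rfl
  · positivity

theorem norm_xmat_le (g : LG P k b a) {C : ℝ} (hC : 0 < C) (c v : P) : ‖xmat g C c v‖ ≤ rb g C c := by
  unfold xmat
  split_ifs with h
  · have h1 := g.ch_lev v c h
    unfold rb
    rw [if_neg (by omega), Complex.norm_real, Real.norm_of_nonneg (by positivity)]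
  · rw [norm_zero]
    exact rb_nonneg g hC c

omit [Fintype P] [DecidableEq P] [Fintype S] in
theorem norm_blk (t : S → ℝ) (x0 : Matrix P P ℂ) (ht : ∀ s, 0 ≤ t s ∧ t s ≤ 1) (i j : S × P) :
    ‖blk t x0 i j‖ = if i.1 = j.1 then t i.1 * ‖x0 i.2 j.2‖ else 0 := by
  unfold blk
  split_ifs
  · rw [norm_mul, Complex.norm_real, Real.norm_of_nonneg (ht _).1]
  · exact norm_zero

theorem norm_blk_le (g : LG P k b a) {C : ℝ} (hC : 0 < C) (t : S → ℝ) (ht : ∀ s, 0 ≤ t s ∧ t s ≤ 1) (i j : S × P) :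
    ‖blk t (xmat g C) i j‖ ≤ rb g C i.2 := by
  rw [norm_blk t _ ht]
  split_ifs
  · calc t i.1 * ‖xmat g C i.2 j.2‖ ≤ 1 * rb g C i.2 :=
        mul_le_mul (ht _).2 (norm_xmat_le g hC _ _) (norm_nonneg _) zero_le_one
      _ = rb g C i.2 := one_mul _
  · exact rb_nonneg g hC _

theorem norm_row_le (g : LG P k b a) {C : ℝ} (hC : 0 < C) (t : S → ℝ) (ht : ∀ s, 0 ≤ t s ∧ t s ≤ 1) (v : S × P → ℂ)
    (i : S × P) : ‖((blk t (xmat g C)).mulVec v) i‖ ≤ rb g C i.2 * n1 v := by
  unfold Matrix.mulVec dotProduct n1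
  rw [mul_sum]
  refine (norm_sum_le _ _).trans (sum_le_sum fun j _ => ?_)
  rw [norm_mul]
  exact mul_le_mul_of_nonneg_right (norm_blk_le g hC t ht i j) (norm_nonneg _)

theorem colLe_xmat (g : LG P k b a) (ha : ∀ l, 1 ≤ a l) {C : ℝ} (hC : 0 < C) (u : P) : ∑ c, ‖xmat g C c u‖ ≤ C := by
  have e : ∀ c ∈ univ, ‖xmat g C c u‖ = if c ∈ g.ch u then C / a (g.lev u + 1) else 0 := by
    intro c _
    unfold xmat
    split_ifs with h
    · rw [g.ch_lev u c h, Complex.norm_real, Real.norm_of_nonneg (by positivity)]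
    · exact norm_zero
  rw [sum_congr rfl e, sum_ite_mem, univ_inter, sum_const, nsmul_eq_mul]
  rcases lt_or_ge (g.lev u) k with h | h
  · rw [g.card_ch u h]
    have : (0 : ℝ) < a (g.lev u + 1) := by exact_mod_cast ha _
    rw [mul_div_cancel₀ _ this.ne']
  · have h0 : g.ch u = ∅ := by
      rw [eq_empty_iff_forall_notMem]
      intro c hc
      have h1 := g.ch_lev u c hc
      have h2 := g.lev_le c
      omega
    rw [h0, card_empty, Nat.cast_zero, zero_mul]
    exact hC.le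

theorem colLe_blk (g : LG P k b a) (ha : ∀ l, 1 ≤ a l) {C : ℝ} (hC : 0 < C) (t : S → ℝ)
    (ht : ∀ s, 0 ≤ t s ∧ t s ≤ 1) : ColLe (blk t (xmat g C)) C := by
  intro j
  rw [Fintype.sum_prod_type]
  have e : ∀ s ∈ univ, ∑ c, ‖blk t (xmat g C) (s, c) j‖ = if s = j.1 then t s * ∑ c, ‖xmat g C c j.2‖ else 0 := by
    intro s _
    have e2 : ∀ c ∈ univ, ‖blk t (xmat g C) (s, c) j‖ = if s = j.1 then t s * ‖xmat g C c j.2‖ else 0 := fun c _ =>
      norm_blk t _ ht (s, c) j
    rw [sum_congr rfl e2]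
    split_ifs
    · exact (mul_sum _ _ _).symm
    · exact sum_const_zero
  rw [sum_congr rfl e, sum_ite_eq', if_pos (mem_univ _)]
  calc t j.1 * ∑ c, ‖xmat g C c j.2‖ ≤ 1 * C :=
        mul_le_mul (ht _).2 (colLe_xmat g ha hC _) (sum_nonneg fun _ _ => norm_nonneg _) zero_le_one
    _ = C := one_mul _

theorem sum_rb (g : LG P k b a) (ha : ∀ l, 1 ≤ a l) (C : ℝ) : ∑ c, rb g C c = k * b * C := by
  have h1 : ∑ c, rb g C c = ∑ l ∈ range (k + 1), ∑ c ∈ univ.filter (fun v => g.lev v = l), rb g C c := by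
    rw [sum_fiberwise_of_maps_to]
    intro c _
    rw [mem_range]
    have := g.lev_le c
    omega
  have h2 : ∀ l ∈ range (k + 1), ∑ c ∈ univ.filter (fun v => g.lev v = l), rb g C c = if l = 0 then 0 else b * C := by
    intro l hl
    rw [mem_range] at hl
    have h3 : ∀ c ∈ univ.filter (fun v => g.lev v = l), rb g C c = if l = 0 then 0 else C / a l := by
      intro c hc
      rw [mem_filter] at hc
      unfold rb
      rw [hc.2]
    rw [sum_congr rfl h3, sum_const, g.card_lev l (by omega), nsmul_eq_mul]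
    split_ifs
    · exact mul_zero _
    · have : (0 : ℝ) < a l := by exact_mod_cast ha _
      push_cast
      field_simp
  rw [h1, sum_congr rfl h2, sum_range_succ']
  simp
  ring

end

theorem hEEE : StEee := by
  intro hRkt P _ _ k b a g S _ _ t C K Y ha hC hK ht hY hidem
  refine ⟨?_, ?_, colLe_blk g ha hC t ht, colLe_mul hC.le (colLe_blk g ha hC t ht) hY⟩
  · intro f hf i
    have h1 : ‖f i‖ ≤ rb g C i.2 * n1 (Y.mulVec f) := by
      conv_lhs => rw [← hf, ← Matrix.mulVec_mulVec]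
      exact norm_row_le g hC t ht _ i
    have h2 := n1_mulVec hY f
    refine h1.trans ((mul_le_mul_of_nonneg_left h2 (rb_nonneg g hC _)).trans (le_of_eq ?_))
    unfold rb
    split_ifs
    · ring
    · ring
  · refine (hRkt _ _ hidem).trans ?_
    have h1 : ∀ i ∈ (univ : Finset (S × P)), ‖(blk t (xmat g C) * Y) i i‖ ≤ rb g C i.2 * K := by
      intro i _
      have e : (blk t (xmat g C) * Y) i i = ((blk t (xmat g C)).mulVec fun j => Y j i) i := rfl
      rw [e]
      exact (norm_row_le g hC t ht _ i).trans (mul_le_mul_of_nonneg_left (hY i) (rb_nonneg g hC _))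
    refine (sum_le_sum h1).trans (le_of_eq ?_)
    rw [Fintype.sum_prod_type]
    have h2 : ∀ s ∈ (univ : Finset S), ∑ c : P, rb g C (s, c).2 * K = k * b * C * K := by
      intro s _
      rw [← sum_mul]
      show (∑ c, rb g C c) * K = _
      rw [sum_rb g ha]
    rw [sum_congr rfl h2, sum_const, card_univ, nsmul_eq_mul]
    ring

end Pool.Agent.Helper2.XR
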